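import Mathlib

set_option autoImplicit false

open MvPolynomial

namespace Pool.Agent.Results.MP_5a868e_co.NotPartitionRegular

/-- `P d` is the set of nonzero polynomials in countably many commuting indeterminates
(indexed by `ℕ`), with nonnegative integer coefficients, zero constant term, and degree at most
`d` in each single variable. -/
def P (d : ℕ) : Set (MvPolynomial ℕ ℕ) :=
  {p | p ≠ 0 ∧ constantCoeff p = 0 ∧ ∀ i : ℕ, degreeOf i p ≤ d}

/-- The largest degree of `p` in a single variable. -/
noncomputable def mu (p : MvPolynomial ℕ ℕ) : ℕ :=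
  p.vars.sup fun i => degreeOf i p

/-- `p` is a product of two polynomials each of which misses a variable in which `p` has
its largest degree. -/
def Splits (p : MvPolynomial ℕ ℕ) : Prop :=
  ∃ f g : MvPolynomial ℕ ℕ, p = f * g ∧
    (∃ i : ℕ, degreeOf i p = mu p ∧ degreeOf i f = 0) ∧
    (∃ j : ℕ, degreeOf j p = mu p ∧ degreeOf j g = 0)

lemma mem_support_mul {f g : MvPolynomial ℕ ℕ} {m n : ℕ →₀ ℕ}
    (hm : m ∈ f.support) (hn : n ∈ g.support) : m + n ∈ (f * g).support := by
  classical
  rw [mem_support_iff] at *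
  rw [coeff_mul]
  intro h
  rw [Finset.sum_eq_zero_iff] at h
  have h1 := h (m, n) (by simp)
  simp only [mul_eq_zero] at h1
  tauto

lemma mem_support_add_left {f g : MvPolynomial ℕ ℕ} {m : ℕ →₀ ℕ}
    (hm : m ∈ f.support) : m ∈ (f + g).support := by
  rw [mem_support_iff] at *
  rw [coeff_add]
  omega

lemma mem_support_add_right {f g : MvPolynomial ℕ ℕ} {m : ℕ →₀ ℕ}
    (hm : m ∈ g.support) : m ∈ (f + g).support := by
  rw [mem_support_iff] at *
  rw [coeff_add]
  omega

lemma support_add_or {f g : MvPolynomial ℕ ℕ} {m : ℕ →₀ ℕ}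
    (hm : m ∈ (f + g).support) : m ∈ f.support ∨ m ∈ g.support := by
  rw [mem_support_iff, coeff_add] at hm
  rw [mem_support_iff, mem_support_iff]
  omega

/-- A monomial realising the degree in the variable `i`. -/
lemma exists_mem_support {f : MvPolynomial ℕ ℕ} (hf : f ≠ 0) (i : ℕ) :
    ∃ m ∈ f.support, m i = degreeOf i f := by
  rw [degreeOf_eq_sup]
  obtain ⟨m, hm, h⟩ := Finset.exists_mem_eq_sup f.support
    (by rw [Finset.nonempty_iff_ne_empty]; simpa using hf) (fun m => m i)
  exact ⟨m, hm, h.symm⟩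

lemma degreeOf_add_le_mul {f g : MvPolynomial ℕ ℕ} (hf : f ≠ 0) (hg : g ≠ 0) (i : ℕ) :
    degreeOf i f + degreeOf i g ≤ degreeOf i (f * g) := by
  obtain ⟨m, hm, h⟩ := exists_mem_support hf i
  obtain ⟨n, hn, h'⟩ := exists_mem_support hg i
  have := monomial_le_degreeOf i (mem_support_mul hm hn)
  simp only [Finsupp.add_apply] at this
  omega

lemma degreeOf_left_le_add {f : MvPolynomial ℕ ℕ} (g : MvPolynomial ℕ ℕ) (hf : f ≠ 0) (i : ℕ) :
    degreeOf i f ≤ degreeOf i (f + g) := by
  obtain ⟨m, hm, h⟩ := exists_mem_support hf i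
  have := monomial_le_degreeOf i (mem_support_add_left (g := g) hm)
  omega

lemma degreeOf_right_le_add (f : MvPolynomial ℕ ℕ) {g : MvPolynomial ℕ ℕ} (hg : g ≠ 0) (i : ℕ) :
    degreeOf i g ≤ degreeOf i (f + g) := by
  obtain ⟨m, hm, h⟩ := exists_mem_support hg i
  have := monomial_le_degreeOf i (mem_support_add_right (f := f) hm)
  omega

lemma degreeOf_le_mu (p : MvPolynomial ℕ ℕ) (i : ℕ) : degreeOf i p ≤ mu p := by
  classical
  by_cases h : i ∈ p.vars
  · exact Finset.le_sup (f := fun i => degreeOf i p) h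
  · have : degreeOf i p = 0 := by
      by_contra h0
      exact h ((mem_vars_iff_degreeOf_ne_zero).2 h0)
    omega

lemma mu_le {p : MvPolynomial ℕ ℕ} {d : ℕ} (h : ∀ i, degreeOf i p ≤ d) : mu p ≤ d :=
  Finset.sup_le fun i _ => h i

/-- A member of `P d` involves a variable. -/
lemma vars_nonempty {p : MvPolynomial ℕ ℕ} (h0 : p ≠ 0) (h1 : constantCoeff p = 0) :
    p.vars.Nonempty := by
  classical
  rw [Finset.nonempty_iff_ne_empty]
  intro h
  rw [vars_eq_empty_iff_eq_C] at h
  apply h0
  rw [h]
  simpa [constantCoeff_eq] using h1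

lemma exists_eq_mu {p : MvPolynomial ℕ ℕ} (h0 : p ≠ 0) (h1 : constantCoeff p = 0) :
    ∃ i, degreeOf i p = mu p ∧ 1 ≤ mu p := by
  classical
  obtain ⟨i, hi, h⟩ := Finset.exists_mem_eq_sup p.vars (vars_nonempty h0 h1)
    (fun i => degreeOf i p)
  refine ⟨i, h.symm, ?_⟩
  have h2 : degreeOf i p ≠ 0 := (mem_vars_iff_degreeOf_ne_zero).1 hi
  have h3 := degreeOf_le_mu p i
  omega

/-- If `x + y = f * g`, where the variable `i` occurs in `f` and not in `y`, and the variable `j`
occurs in `y` and not in `x`, then `j` occurs in `f`. -/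
lemma factor_contains {x y f g : MvPolynomial ℕ ℕ} (hy : y ≠ 0) (h : x + y = f * g)
    {i j : ℕ} (hif : degreeOf i f ≠ 0) (hiy : degreeOf i y = 0)
    (hjy : degreeOf j y ≠ 0) (hjx : degreeOf j x = 0) : degreeOf j f ≠ 0 := by
  intro hjf
  have hf : f ≠ 0 := by
    rintro rfl
    simp at hif
  have hfg : x + y ≠ 0 := by
    intro h0
    obtain ⟨m, hm, -⟩ := exists_mem_support hy 0
    have := mem_support_add_right (f := x) hm
    rw [h0] at this
    simp at this
  have hg : g ≠ 0 := by
    rintro rfl
    exact hfg (by rw [h, mul_zero])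
  -- the variable `j` occurs in `g`
  have hjg : degreeOf j g ≠ 0 := by
    have h1 : degreeOf j (f * g) ≤ degreeOf j f + degreeOf j g := degreeOf_mul_le j f g
    have h2 := degreeOf_right_le_add x hy j
    rw [h] at h2
    omega
  obtain ⟨m, hm, hmi⟩ := exists_mem_support hf i
  obtain ⟨n, hn, hnj⟩ := exists_mem_support hg j
  have hmn : m + n ∈ (x + y).support := by
    rw [h]
    exact mem_support_mul hm hn
  rcases support_add_or hmn with hx | hy'
  · have := monomial_le_degreeOf j hx
    simp only [Finsupp.add_apply] at this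
    omega
  · have := monomial_le_degreeOf i hy'
    simp only [Finsupp.add_apply] at this
    omega

/-- The combinatorial core: `x`, `y`, `x + y`, `x * y` cannot all have the same value of `mu`
unless `x * y` splits and `x + y` does not split. -/
lemma core {x y : MvPolynomial ℕ ℕ} (hx : x ≠ 0) (hx0 : constantCoeff x = 0)
    (hy : y ≠ 0) (hy0 : constantCoeff y = 0)
    (h1 : mu y = mu x) (h2 : mu (x + y) = mu x) (h3 : mu (x * y) = mu x) :
    Splits (x * y) ∧ ¬ Splits (x + y) := by
  classical
  obtain ⟨a, ha, hmu⟩ := exists_eq_mu hx hx0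
  obtain ⟨b, hb, hmu'⟩ := exists_eq_mu hy hy0
  -- a variable of top degree in one of `x`, `y` is missing from the other
  have key1 : ∀ i, degreeOf i x = mu x → degreeOf i y = 0 := by
    intro i hi
    have := degreeOf_add_le_mul hx hy i
    have := degreeOf_le_mu (x * y) i
    omega
  have key2 : ∀ i, degreeOf i y = mu x → degreeOf i x = 0 := by
    intro i hi
    have := degreeOf_add_le_mul hx hy i
    have := degreeOf_le_mu (x * y) i
    omega
  have hay : degreeOf a y = 0 := key1 a ha
  have hbx : degreeOf b x = 0 := key2 b (by omega)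
  constructor
  · refine ⟨x, y, rfl, ⟨b, ?_, hbx⟩, ⟨a, ?_, hay⟩⟩
    · have := degreeOf_add_le_mul hx hy b
      have := degreeOf_le_mu (x * y) b
      omega
    · have := degreeOf_add_le_mul hx hy a
      have := degreeOf_le_mu (x * y) a
      omega
  · rintro ⟨f, g, hfg, ⟨i, hi, hif⟩, ⟨j, hj, hjg⟩⟩
    have hyx : y + x = f * g := by rw [add_comm]; exact hfg
    -- every factor containing one of the variables missing from `x` or from `y` contains all
    have claim : ∀ f' g' : MvPolynomial ℕ ℕ, x + y = f' * g' → degreeOf a f' ≠ 0 →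
        ∀ k, degreeOf k (x + y) = mu (x + y) → degreeOf k f' ≠ 0 := by
      intro f' g' hfg' haf k hk
      have hbf : degreeOf b f' ≠ 0 :=
        factor_contains hy hfg' haf hay (by omega) hbx
      have hk' : degreeOf k x = mu x ∨ degreeOf k y = mu x := by
        have h4 := degreeOf_add_le k x y
        have h5 := degreeOf_le_mu x k
        have h6 := degreeOf_le_mu y k
        rcases le_total (degreeOf k x) (degreeOf k y) with h7 | h7
        · rw [max_eq_right h7] at h4
          right; omega
        · rw [max_eq_left h7] at h4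
          left; omega
      rcases hk' with hk' | hk'
      · have hky := key1 k hk'
        have : y + x = f' * g' := by rw [add_comm]; exact hfg'
        exact factor_contains hx this hbf hbx (by omega) hky
      · have hkx := key2 k hk'
        exact factor_contains hy hfg' haf hay (by omega) hkx
    have ha' : degreeOf a (x + y) ≠ 0 := by
      have := degreeOf_left_le_add y hx a
      omega
    have hor : degreeOf a f ≠ 0 ∨ degreeOf a g ≠ 0 := by
      have := degreeOf_mul_le a f g
      rw [← hfg] at this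
      omega
    rcases hor with h | h
    · exact claim f g hfg h i hi hif
    · exact claim g f (by rw [mul_comm]; exact hfg) h j hj hjg

/-- For every `d ≥ 1` there is a colouring of `P d` with `2 * d` colours and no monochromatic
`{x, y, x + y, x * y}`. In particular the pattern is not partition regular over `P d`. -/
theorem result : ∀ d : ℕ, 1 ≤ d → ∃ c : P d → Fin (2 * d),
    ∀ x y : P d, ∀ (hs : (x : MvPolynomial ℕ ℕ) + y ∈ P d)
      (hp : (x : MvPolynomial ℕ ℕ) * y ∈ P d),
      ¬ (c y = c x ∧ c ⟨_, hs⟩ = c x ∧ c ⟨_, hp⟩ = c x) := by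
  classical
  intro d hd
  have hbd : ∀ p : P d, (if Splits (p : MvPolynomial ℕ ℕ) then 2 * (mu (p : MvPolynomial ℕ ℕ) - 1)
      else 2 * (mu (p : MvPolynomial ℕ ℕ) - 1) + 1) < 2 * d := by
    intro p
    have := mu_le p.2.2.2
    split_ifs <;> omega
  refine ⟨fun p => ⟨_, hbd p⟩, ?_⟩
  rintro ⟨x, hx⟩ ⟨y, hy⟩ hs hp ⟨e1, e2, e3⟩
  simp only [Fin.mk.injEq] at e1 e2 e3
  simp only at hs hp
  obtain ⟨_, -, hmx⟩ := exists_eq_mu hx.1 hx.2.1
  obtain ⟨_, -, hmy⟩ := exists_eq_mu hy.1 hy.2.1
  obtain ⟨_, -, hms⟩ := exists_eq_mu hs.1 hs.2.1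
  obtain ⟨_, -, hmp⟩ := exists_eq_mu hp.1 hp.2.1
  have k1 : mu y = mu x := by split_ifs at e1 <;> omega
  have k2 : mu (x + y) = mu x := by split_ifs at e2 <;> omega
  have k3 : mu (x * y) = mu x := by split_ifs at e3 <;> omega
  obtain ⟨s1, s2⟩ := core hx.1 hx.2.1 hy.1 hy.2.1 k1 k2 k3
  rw [if_pos s1] at e3
  rw [if_neg s2] at e2
  split_ifs at e2 e3 <;> omega

end Pool.Agent.Results.MP_5a868e_co.NotPartitionRegular
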